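import Pool.Agent.Helper65.CV.Defs
import Pool.Agent.Helper65.CV.Final

/-!
# Reductions to recursive isomorphism on Cantor space are not computable along orbits

`shift γ x = fun δ => x (γ⁻¹ * δ)` is the shift action of `Γ` on `(2^ℕ)^Γ`, `IsFree x` says that
`x` has trivial stabiliser, `RecIso a b` says that `b = a ∘ π` for a computable bijection `π` of
`ℕ`, and `ApproxAt v f x` says that there are a computable function `σ` of two variables, such
that every `σ i` is a bijection of `ℕ`, and a computable function `g` which tends to infinity,
both depending on `x` in any way, with `f (v i x) n = f x (σ i n)` whenever `n ≤ g i` or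
`σ i n ≤ g i`. If `f (v i x) = f x ∘ σ i` for all `i` then every such `g` will do.

Theorem: let `v 0, v 1, …` be free generators of a free subgroup of `Γ` and let `f` be a Borel map
from `(2^ℕ)^Γ` to `2^ℕ` with `ApproxAt v f x` for every `x` in the free part. Then there are
infinitely many points of the free part, in pairwise different `Γ`-orbits, whose images are
pairwise recursively isomorphic. In particular, if `f` is a Borel reduction of the (free part of
the) shift of `Γ` to recursive isomorphism on `2^ℕ`, then at some point `x` recursive isomorphisms
from `f x` to `f (v i x)` cannot be chosen computably in `i`, not even approximately.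
The proof uses Borel determinacy (`Pool.Agent.Helper71.BD`) and a computable back and forth
construction (`Pool.Agent.Helper65.CV.Match`). The exact case is `Helper65.CV.exact_case`, the
case of reductions which are uniform along orbits is `Helper65.CU.uniform_case`.
-/

set_option autoImplicit false

namespace Pool.Agent.Results.MP_985004_lc.NoComputableReduction

open Pool.Agent.Helper65.CV

theorem result (Γ : Type) [Group Γ] (v : ℕ → Γ) (hv : Function.Injective (FreeGroup.lift v))
    (f : (Γ → ℕ → Bool) → (ℕ → Bool)) (hf : Measurable f)
    (hu : ∀ x : Γ → ℕ → Bool, IsFree x → ApproxAt v f x) :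
    ∃ y : ℕ → Γ → ℕ → Bool, (∀ l, IsFree (y l)) ∧
      (∀ l l', l ≠ l' → ∀ γ : Γ, shift γ (y l) ≠ y l') ∧
      ∀ l l', RecIso (f (y l)) (f (y l')) :=
  final v hv f hf hu

end Pool.Agent.Results.MP_985004_lc.NoComputableReduction
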